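import Pool.Agent.Helper61.TQ.Core
import Pool.Agent.Helper58.PolyDecode

set_option autoImplicit false

/-! The relation of the calls of the learning program is in NP. -/

namespace Pool.Agent.Helper61.TQ

open Pool.Agent.Helper58 Pool.Agent.Helper53.CL Pool.Agent.Helper52.Grid

section RLPlib

variable {α γ : Type} [Enc α] [Enc γ]

theorem RLP_take {l : γ → List α} {n : γ → ℕ} (hl : PTf l) (hn : PTf n) :
    PTf (fun x => (l x).take (n x)) := by
  have : PTf (fun x => ((l x).reverse.drop ((l x).length - n x)).reverse) := by fun_prop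
  refine this.congr (fun x => ?_)
  have h := List.take_reverse (xs := (l x).reverse) (i := n x)
  rw [List.reverse_reverse, List.length_reverse] at h
  exact h

theorem RLP_headD {l : γ → List α} {d : γ → α} (hl : PTf l) (hd' : PTf d) :
    PTf (fun x => (l x).headD (d x)) := by
  refine (ptf_hd hl hd').congr (fun x => ?_)
  cases l x <;> rfl

theorem RLP_xor {p q : γ → Bool} (hp : PTf p) (hq : PTf q) :
    PTf (fun x => Bool.xor (p x) (q x)) := by
  have h : PTf (fun x => bif p x then !(q x) else q x) := by fun_prop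
  refine h.congr (fun x => ?_)
  cases p x <;> cases q x <;> rfl

theorem RLP_ip {u v : γ → W} (hu : PTf u) (hv : PTf v) : PTf (fun x => ip (u x) (v x)) := by
  unfold ip
  refine ptf_foldl_add (γ := γ) (l := fun x => (u x).zip (v x)) (init := fun _ => false)
    (step := fun _ s p => Bool.xor s (p.1 && p.2)) (K := fun _ => 3) (by fun_prop) (by fun_prop)
    ?_ (PB.const _) ?_
  · exact RLP_xor (by fun_prop) (by fun_prop)
  · intro x b a _
    exact (sz_bool _).trans (by omega)

theorem RLP_rowZ {u v : γ → W} (hu : PTf u) (hv : PTf v) : PTf (fun x => rowZ (u x) (v x)) := by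
  unfold rowZ
  exact PTf.not (RLP_xor (RLP_headD hu (ptf_const _)) (RLP_ip (ptf_tail hu) hv))

theorem RLP_hz {n k : γ → ℕ} {s y : γ → W} (hn : PTf n) (hk : PTf k) (hs : PTf s) (hy : PTf y) :
    PTf (fun x => hz (n x) (k x) (s x) (y x)) := by
  unfold hz
  refine PTf.all (by fun_prop) ?_
  refine RLP_rowZ (RLP_take ?_ ?_) ?_
  · fun_prop
  · fun_prop
  · fun_prop

theorem RLP_levels {n : γ → ℕ} (hn : PTf n) : PTf (fun x => levels (n x)) := by
  unfold levels tt
  fun_prop

theorem RLP_JJ {n : γ → ℕ} (hn : PTf n) : PTf (fun x => JJ (n x)) := by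
  unfold JJ tt
  fun_prop

theorem RLP_hs {n : γ → ℕ} (hn : PTf n) : PTf (fun x => hs (n x)) := by
  unfold hs
  fun_prop

theorem RLP_seed {n i s : γ → ℕ} {r : γ → W} (hn : PTf n) (hr : PTf r) (hi : PTf i) (hs : PTf s) :
    PTf (fun x => seed (n x) (r x) (i x) (s x)) := by
  unfold seed
  have h1 := RLP_JJ hn
  have h2 := RLP_hs hn
  exact RLP_take (ptf_drop hr (by fun_prop)) h2

theorem RLP_cons (S : Sys) (hS : PTf (fun x : W × W => S.solves x.1 x.2)) {L : γ → List W}
    {y : γ → W} (hL : PTf L) (hy : PTf y) : PTf (fun x => S.cons (L x) (y x)) := by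
  unfold Sys.cons
  refine PTf.all hL ?_
  exact PTf.comp (g := fun x : W × W => S.solves x.1 x.2) hS (f := fun p : γ × W => (y p.1, p.2))
    (by fun_prop)

theorem RLP_step {x : γ → St} {J : γ → ℕ} {w : γ → W} (hx : PTf x) (hJ : PTf J) (hw : PTf w) :
    PTf (fun a => stepSt (J a) (x a) (w a)) := by
  unfold stepSt
  have h1 : PTf (fun a => (w a).headD false) := RLP_headD hw (ptf_const _)
  fun_prop

theorem RLP_sz_tail (w : W) : sz w.tail ≤ sz w := by
  rw [← List.drop_one]
  exact sz_drop_le w 1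

theorem RLP_sz_step (J : ℕ) (s : St) (w : W) : sz (stepSt J s w) ≤ sz s + (sz w + 10) := by
  obtain ⟨⟨a, b⟩, ⟨c, d⟩⟩ := s
  have h0 := RLP_sz_tail w
  have h1 := sz_pos a
  have h2 := sz_pos b
  have h3 := sz_pos c
  have h4 := sz_pos d
  have h5 : sz ([] : List W) = 1 := sz_lnil
  unfold stepSt
  simp only
  by_cases hb : b.length < J
  · rw [if_pos hb]
    have e := sz_append b [w.tail]
    rw [sz_lcons, h5] at e
    simp only [sz_pair]
    omega
  · rw [if_neg hb]
    cases w.headD false with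
    | true =>
      have e := sz_append a [w.tail]
      rw [sz_lcons, h5] at e
      simp only [cond_true, sz_pair, h5]
      omega
    | false =>
      simp only [cond_false, sz_pair, h5, sz_true]
      omega

theorem RLP_state {n : γ → ℕ} {p : γ → List W} (hn : PTf n) (hp : PTf p) :
    PTf (fun x => state (n x) (p x)) := by
  unfold state
  refine ptf_foldl_add (γ := γ) (l := p) (init := fun _ => st0)
    (step := fun x s w => stepSt (JJ (n x)) s w) (K := fun x => sz (p x) + 10) hp (by fun_prop)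
    ?_ ((hp.sz_le).add (PB.const _)) ?_
  · refine RLP_step (by fun_prop) ?_ (by fun_prop)
    exact RLP_JJ (by fun_prop)
  · intro x b a ha
    have h1 := RLP_sz_step (JJ (n x)) b a
    have h2 := sz_mem_le (p x) a ha
    omega

theorem RLP_congr {L L' : α → Prop} (h : NPf L) (e : ∀ a, L' a ↔ L a) : NPf L' := by
  have : L' = L := funext fun a => propext (e a)
  rw [this]
  exact h

end RLPlib

theorem st_RLP (hPP : ST_PP) (hNPC : ST_NPC) : ST_RLP := by
  intro S
  have hS := hPP.2 S
  obtain ⟨c1, c2, c3, c4, -⟩ := hNPC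
  have hK : NPf (fun x : W => x ∈ S.K) := by
    refine ⟨S.V, S.m, S.pV, S.pm, fun a w h => (S.hV a w h).2, fun a ha => ?_⟩
    obtain ⟨z, hz⟩ := S.hK a ha
    exact ⟨z, (S.hV a z hz).1.le, hz⟩
  have hst : PTf (fun x : (ℕ × W) × (List W × W) => state x.1.1 x.2.1) := RLP_state (by fun_prop) (by fun_prop)
  have hJ : PTf (fun x : (ℕ × W) × (List W × W) => JJ x.1.1) := RLP_JJ (by fun_prop)
  have hcond : PTf (fun x : (ℕ × W) × (List W × W) => decide ((state x.1.1 x.2.1).1.2.length < JJ x.1.1)) := by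
    fun_prop
  have hRT : PTf (fun x : (ℕ × W) × (List W × W) => (decide (x.2.2.length = x.1.1) &&
      (S.cons (state x.1.1 x.2.1).1.1 x.2.2 &&
        hz x.1.1 ((levels x.1.1).getD (state x.1.1 x.2.1).1.2.length 0)
          (seed x.1.1 x.1.2 (state x.1.1 x.2.1).1.1.length (state x.1.1 x.2.1).1.2.length)
          x.2.2))) := by
    have hl : PTf (fun x : (ℕ × W) × (List W × W) => levels x.1.1) := RLP_levels (by fun_prop)
    refine PTf.and (by fun_prop) (PTf.and (RLP_cons S hS (by fun_prop) (by fun_prop)) ?_)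
    refine RLP_hz (by fun_prop) (by fun_prop) ?_ (by fun_prop)
    exact RLP_seed (by fun_prop) (by fun_prop) (by fun_prop) (by fun_prop)
  have hRX1 : PTf (fun x : (ℕ × W) × (List W × W) => (decide (x.2.2.length = x.1.1) &&
      (state x.1.1 x.2.1).1.2.all (fun ρ => !(S.solves ρ x.2.2)))) := by
    refine PTf.and (by fun_prop) (PTf.all (by fun_prop) (PTf.not ?_))
    exact PTf.comp (g := fun x : W × W => S.solves x.1 x.2) hS
      (f := fun p : ((ℕ × W) × (List W × W)) × W => (p.2, p.1.2.2)) (by fun_prop)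
  have hK' : NPf (fun x : (ℕ × W) × (List W × W) => x.2.2 ∈ S.K) := c2 (fun x : W => x ∈ S.K) (fun x : (ℕ × W) × (List W × W) => x.2.2) hK
    (by fun_prop)
  have key := c4 _ _ (c3 _ _ (c1 _ hcond) (c1 _ hRT))
    (c3 _ _ (c1 _ (PTf.not hcond)) (c3 _ _ (c1 _ hRX1) hK'))
  refine RLP_congr key (fun x => ?_)
  unfold Sys.RL Sys.RT Sys.RX
  by_cases h : (state x.1.1 x.2.1).1.2.length < JJ x.1.1
  · rw [if_pos h]
    simp [h]
  · rw [if_neg h]
    simp only [h, Bool.and_eq_true, decide_eq_true_eq, List.all_eq_true, Bool.not_eq_true',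
      decide_false, Bool.false_eq_true, false_and, false_or, Bool.not_false, true_and]
    tauto

end Pool.Agent.Helper61.TQ
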